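import Pool.Agent.Lib.MP_478558_lc.Final

/-!
`ZF` does not prove that the space of irrational numbers is a `k`-space: there is an
`ω`-model of `ZF` (Cohen's symmetric model) in which it is not a `k`-space.
-/

set_option autoImplicit false

namespace Pool.Agent.Results.MP_478558_lc.CohenModel

theorem result : ∃ (M : Type) (E : M → M → Prop),
    MP478558.ModelsZF M E ∧ MP478558.IsOmegaModel E ∧ ¬ MP478558.IrrationalsKSpace E :=
  MP478558.main_theorem

end Pool.Agent.Results.MP_478558_lc.CohenModel
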